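import Pool.Agent.helper55.BL.Spec

/-! Row `bl:PBD` (MP_143341_co). -/

set_option autoImplicit false

namespace Pool.Agent.helper55.BL

open Finset
open scoped Classical
open Pool.Agent.helper61.BM (Clo dg)

/-- the part of the path from index `j` to index `j + n` -/
def PBD_seg {V : Type} (p : ℕ → V) (j n : ℕ) : List V := (List.range (n + 1)).map (fun t => p (j + t))

theorem PBD_len {V : Type} (p : ℕ → V) (j n : ℕ) : (PBD_seg p j n).length = n + 1 := by
  simp [PBD_seg]

theorem PBD_head {V : Type} (p : ℕ → V) (j n : ℕ) : (PBD_seg p j n).head? = some (p j) := by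
  simp [PBD_seg, List.head?_range]

theorem PBD_last {V : Type} (p : ℕ → V) (j n : ℕ) :
    (PBD_seg p j n).getLast? = some (p (j + n)) := by
  simp [PBD_seg, List.range_succ]

theorem PBD_mem {V : Type} (p : ℕ → V) (j n : ℕ) (v : V) (h : v ∈ PBD_seg p j n) :
    ∃ t, t ≤ n ∧ v = p (j + t) := by
  rw [PBD_seg, List.mem_map] at h
  obtain ⟨t, ht, rfl⟩ := h
  rw [List.mem_range] at ht
  exact ⟨t, by omega, rfl⟩

theorem PBD_pa {V : Type} {G : SimpleGraph V} {m : ℕ} {p : ℕ → V} (hp : Pth G m p) {j n : ℕ}
    (h : j + n ≤ m) : Pa G (PBD_seg p j n) := by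
  constructor
  · rw [PBD_seg]
    refine List.Nodup.map_on ?_ List.nodup_range
    intro x hx y hy hxy
    rw [List.mem_range] at hx hy
    have := hp.inj (j + x) (j + y) (by omega) (by omega) hxy
    omega
  · rw [List.isChain_iff_getElem]
    intro i hi
    rw [PBD_len] at hi
    have e : ∀ (t : ℕ) (ht : t < (PBD_seg p j n).length), (PBD_seg p j n)[t] = p (j + t) := by
      intro t ht
      simp [PBD_seg]
    rw [e, e]
    exact hp.adj (j + i) (by omega)

theorem PBD (hCOM : COM_stmt) (hARC : ARC_stmt) : PBD_stmt := by
  intro V _ G s hT hs hl m p hp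
  rcases Nat.lt_or_ge m 2 with hm | hm
  · nlinarith
  obtain ⟨l, hC, h3, h0, hmm⟩ := hCOM V G m p hT hp hm
  set I := (Finset.range (m + 1)).filter (fun j => p j ∈ l) with hI
  have hIc : I.card ≤ s := by
    have h1 : I.card ≤ l.toFinset.card := by
      refine Finset.card_le_card_of_injOn p ?_ ?_
      · intro j hj
        have := (Finset.mem_filter.mp (Finset.mem_coe.mp hj)).2
        exact Finset.mem_coe.mpr (List.mem_toFinset.mpr this)
      · intro x hx y hy hxy
        have h1 := Finset.mem_range.mp (Finset.mem_filter.mp (Finset.mem_coe.mp hx)).1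
        have h2 := Finset.mem_range.mp (Finset.mem_filter.mp (Finset.mem_coe.mp hy)).1
        exact hp.inj x y (by omega) (by omega) hxy
    exact h1.trans ((List.toFinset_card_le l).trans (hl l hC))
  have hI0 : 0 ∈ I := Finset.mem_filter.mpr ⟨Finset.mem_range.mpr (by omega), h0⟩
  have hIm : m ∈ I := Finset.mem_filter.mpr ⟨Finset.mem_range.mpr (by omega), hmm⟩
  -- the greatest element of `I` which is at most `i`
  have hg : ∀ i, (I.filter (fun j => j ≤ i)).Nonempty := fun i =>
    ⟨0, Finset.mem_filter.mpr ⟨hI0, Nat.zero_le i⟩⟩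
  have hmem : ∀ i, (I.filter (fun j => j ≤ i)).max' (hg i) ∈ I ∧
      (I.filter (fun j => j ≤ i)).max' (hg i) ≤ i := fun i =>
    Finset.mem_filter.mp (Finset.max'_mem _ (hg i))
  have hfib : ∀ j ∈ I, ((Finset.range (m + 1)).filter
      (fun i => (I.filter (fun j => j ≤ i)).max' (hg i) = j)).card ≤ s := by
    intro j hj
    obtain ⟨hjr, hjl⟩ := Finset.mem_filter.mp hj
    rw [Finset.mem_range] at hjr
    rcases Nat.lt_or_ge j m with hjm | hjm
    · have hne : (I.filter (fun x => j < x)).Nonempty :=
        ⟨m, Finset.mem_filter.mpr ⟨hIm, hjm⟩⟩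
      set k := (I.filter (fun x => j < x)).min' hne with hk
      obtain ⟨hkI, hjk⟩ := Finset.mem_filter.mp (Finset.min'_mem _ hne)
      rw [← hk] at hkI hjk
      obtain ⟨hkr, hkl⟩ := Finset.mem_filter.mp hkI
      rw [Finset.mem_range] at hkr
      have hsub : (Finset.range (m + 1)).filter
          (fun i => (I.filter (fun j => j ≤ i)).max' (hg i) = j) ⊆ Finset.Ico j k := by
        intro i hi
        obtain ⟨_, hi2⟩ := Finset.mem_filter.mp hi
        rw [Finset.mem_Ico]
        refine ⟨?_, ?_⟩
        · have := (hmem i).2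
          rw [hi2] at this
          exact this
        · by_contra hc
          have h1 : k ∈ I.filter (fun j => j ≤ i) :=
            Finset.mem_filter.mpr ⟨hkI, not_lt.mp hc⟩
          have h2 := Finset.le_max' _ k h1
          rw [hi2] at h2
          omega
      have hc := Finset.card_le_card hsub
      rw [Nat.card_Ico] at hc
      have hne' : p j ≠ p k := by
        intro h
        have := hp.inj j k (by omega) (by omega) h
        omega
      have hkj : j + (k - j) = k := by omega
      obtain ⟨l', hC', hl'⟩ := hARC V G l (PBD_seg p j (k - j)) (p j) (p k) hC h3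
        (PBD_pa hp (by omega)) (PBD_head p j (k - j)) (by rw [PBD_last, hkj]) hne' hjl hkl (by
          intro w hw hwl
          obtain ⟨t, ht, rfl⟩ := PBD_mem p j (k - j) w hw
          have h1 : j + t ∈ I :=
            Finset.mem_filter.mpr ⟨Finset.mem_range.mpr (by omega), hwl⟩
          rcases Nat.eq_zero_or_pos t with h0 | h0
          · left
            rw [h0, Nat.add_zero]
          · right
            have h2 : j + t ∈ I.filter (fun x => j < x) :=
              Finset.mem_filter.mpr ⟨h1, by omega⟩
            have h3 := Finset.min'_le _ _ h2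
            rw [← hk] at h3
            have h4 : j + t = k := by omega
            rw [h4])
      rw [PBD_len] at hl'
      have := hl l' hC'
      omega
    · have hsub : (Finset.range (m + 1)).filter
          (fun i => (I.filter (fun j => j ≤ i)).max' (hg i) = j) ⊆ {m} := by
        intro i hi
        obtain ⟨hi1, hi2⟩ := Finset.mem_filter.mp hi
        rw [Finset.mem_range] at hi1
        rw [Finset.mem_singleton]
        have := (hmem i).2
        rw [hi2] at this
        omega
      have hc := Finset.card_le_card hsub
      rw [Finset.card_singleton] at hc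
      omega
  have hmaps : ∀ i ∈ Finset.range (m + 1), (I.filter (fun j => j ≤ i)).max' (hg i) ∈ I :=
    fun i _ => (hmem i).1
  have hfin := Finset.card_le_mul_card_image_of_maps_to hmaps s hfib
  rw [Finset.card_range] at hfin
  exact hfin.trans (Nat.mul_le_mul_left s hIc)

end Pool.Agent.helper55.BL
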